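import Mathlib

/-!
# Project HV (helper21): the Havet-Yu conjecture for all graphs, `p ≥ (1/2 + ε) D`, `D` large

Theorem: for every `ε > 0` there is `D₀` such that for all `D ≥ D₀` and `p ≥ (1/2 + ε) D` every
finite graph with all degrees at most `D` has a `(p,1)`-total labelling of span `D + 2 p - 1`.

The library has this for graphs without cliques of nearly maximal size only.
See `Pool/Agent/H21/HV/PLAN.md` for the paper proof.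
-/

set_option autoImplicit false
open Classical Finset

namespace Pool.Agent.H21.HV

/-- number of neighbours of `v` in `S` -/
noncomputable def nb {V : Type} (G : SimpleGraph V) (S : Finset V) (v : V) : ℕ :=
  (S.filter (fun u => G.Adj v u)).card

/-- `S` is a clique -/
def Clq {V : Type} (G : SimpleGraph V) (S : Finset V) : Prop :=
  ∀ x ∈ S, ∀ y ∈ S, x ≠ y → G.Adj x y

/-- `c` is a proper edge colouring of `Γ` with colours `< N` -/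
def Prp {V : Type} (Γ : SimpleGraph V) (N : ℕ) (c : V → V → ℕ) : Prop :=
  (∀ u v, c u v = c v u) ∧ (∀ u v, Γ.Adj u v → c u v < N) ∧
  ∀ u v w, Γ.Adj u v → Γ.Adj u w → v ≠ w → c u v ≠ c u w

/-- the union of the `Z K`, `K ∈ I` -/
noncomputable def ZZ {V : Type} (I : Finset (Finset V)) (Z : Finset V → Finset V) : Finset V :=
  I.biUnion Z

/-- pairwise disjoint family -/
def Dsj {V : Type} (I : Finset (Finset V)) : Prop := ∀ K ∈ I, ∀ K' ∈ I, K ≠ K' → Disjoint K K'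

/-! ### FAM: a maximal family of disjoint large cliques -/

def S_FAM : Prop :=
  ∀ (V : Type) [Fintype V] (G : SimpleGraph V) (θ : ℕ), 1 ≤ θ →
    ∃ I : Finset (Finset V), (∀ K ∈ I, θ ≤ K.card ∧ Clq G K) ∧ Dsj I ∧
      ∀ Q : Finset V, Clq G Q → θ ≤ Q.card → ∃ K ∈ I, ¬ Disjoint K Q

/-! ### SEL: choice of the mids `Z K ⊆ K` (random cell, library `t_PART`, and its complement) -/

def S_SEL : Prop :=
  ∀ R : ℕ, 1 ≤ R → ∃ D0 : ℕ, ∀ D : ℕ, D0 ≤ D → ∀ (V : Type) [Fintype V] (G : SimpleGraph V)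
    (I : Finset (Finset V)) (s : ℕ),
    (∀ v, nb G univ v ≤ D) → Dsj I → (∀ K ∈ I, D ≤ 2 * K.card ∧ K.card ≤ D + 1) →
    16 * R * s ≤ D →
    ∃ Z : Finset V → Finset V, (∀ K ∈ I, Z K ⊆ K ∧ (Z K).card = 4 * s) ∧
      ∀ v, R * nb G (ZZ I Z) v ≤ 2 * D

/-! ### TYP: types for graphs without cliques of nearly maximal size (library `tied_core`,
`clique_main` with the typed structure as the conclusion) -/

/-- the hypotheses of the library theorem `TH104.HY.structB` which do not mention `p` -/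
structure Typed {V : Type} [Fintype V] (G : SimpleGraph V) (D q m w k : ℕ) (T c : V → ℕ) :
    Prop where
  hm : 2 * q + 1 ≤ m
  hT : ∀ v, T v < 2 * m
  hw : ∀ v y, nb G (univ.filter (fun u => T u = y)) v ≤ w
  hc : ∀ v, c v < k
  hcc : ∀ u v, G.Adj u v → T u = T v → c u ≠ c v
  hkw : k ≤ w + 1
  H1 : ((m : ℤ) - 1 - q) * k ≤ ((m : ℤ) - 1 - 2 * q) * (w + 1)
  H2 : 2 * ((q : ℤ) + 1) * k + (2 * (m : ℤ) - 1 - 2 * q) * (w + 1) ≤ D + 2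

def S_TYP : Prop :=
  ∀ ε : ℝ, 0 < ε → ε ≤ 1 → ∃ D0 : ℕ, ∀ D : ℕ, D0 ≤ D → ∀ (V : Type) [Fintype V]
    (G : SimpleGraph V), (∀ v, nb G univ v ≤ D) →
    (∀ S : Finset V, Clq G S → (S.card : ℝ) ≤ (1 - ε) * D) →
    ∃ (q m w k : ℕ) (T c : V → ℕ), Typed G D q m w k T c ∧
      (m : ℝ) * ((w : ℝ) + 1) ≤ (1 / 2 + ε) * D

/-! ### CRO: the labels of the vertices and of the edges between the two sides `T < m`, `m ≤ T`
(from the proof of `structA`, `structB`; coordinates shifted by `p`) -/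

def S_CRO : Prop :=
  ∀ (V : Type) [Fintype V] (G : SimpleGraph V) (D q m w k : ℕ) (T c : V → ℕ),
    Typed G D q m w k T c →
    ∃ (x : V → ℕ) (e : V → V → ℕ), (∀ v, x v < m * k) ∧
      (∀ u v, G.Adj u v → (T u < m ↔ T v < m) → x u ≠ x v) ∧
      (∀ u v, e u v = e v u) ∧
      (∀ u v, G.Adj u v → T u < m → m ≤ T v → x u ≤ e u v ∧ e u v + x v + 1 ≤ D) ∧
      (∀ u v v', G.Adj u v → G.Adj u v' → v ≠ v' → ¬ (T u < m ↔ T v < m) →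
        ¬ (T u < m ↔ T v' < m) → e u v ≠ e u v')

/-! ### TGR: graphs with nearly prescribed degrees -/

/-- bipartite graph with prescribed left degrees and balanced right degrees -/
def S_BIP : Prop :=
  ∀ (X : Type) (P Q : Finset X) (d : X → ℕ), Disjoint P Q → Q.Nonempty →
    (∀ x ∈ P, d x ≤ Q.card) →
    ∃ B : SimpleGraph X, (∀ x y, B.Adj x y → (x ∈ P ∧ y ∈ Q) ∨ (x ∈ Q ∧ y ∈ P)) ∧
      (∀ x ∈ P, nb B Q x = d x) ∧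
      ∀ y ∈ Q, nb B P y = (∑ x ∈ P, d x) / Q.card ∨
        (nb B P y = (∑ x ∈ P, d x) / Q.card + 1 ∧ ¬ Q.card ∣ ∑ x ∈ P, d x)

/-- regular graphs on an even number of vertices -/
def S_REG : Prop :=
  ∀ (X : Type) (P : Finset X) (a : ℕ), Even P.card → a < P.card →
    ∃ B : SimpleGraph X, (∀ x y, B.Adj x y → x ∈ P ∧ y ∈ P) ∧ ∀ x ∈ P, nb B P x = a

def S_TGR : Prop :=
  ∀ (X : Type) (M : Finset X) (s t : ℕ) (ρ : X → ℕ) (δ : X → ℤ), Even s → t < s →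
    M.card = 4 * s → (∀ z ∈ M, ρ z < 4 * s) →
    (∀ z ∈ M, ∀ z' ∈ M, ρ z = ρ z' → z = z') → (∀ z ∈ M, |δ z| ≤ t) →
    (∀ z ∈ M, ∀ z' ∈ M, ρ z / s < ρ z' / s → δ z ≤ δ z') →
    (∀ z ∈ M, ρ z < 2 * s → δ z ≤ 0) → (∀ z ∈ M, 2 * s ≤ ρ z → 0 ≤ δ z) →
    ∃ T : SimpleGraph X, (∀ x y, T.Adj x y → x ∈ M ∧ y ∈ M) ∧
      ∀ z ∈ M, (nb T M z : ℤ) = ρ z - δ z ∨ (nb T M z : ℤ) = ρ z - δ z + 1

/-! ### LAB: the labels of the mids (library `t_HINJ`: random injections and lopsided local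
lemma) -/

def S_LAB : Prop :=
  ∀ (V : Type) [Fintype V] (G : SimpleGraph V) (I : Finset (Finset V))
    (Z : Finset V → Finset V) (s t : ℕ) (a : V → ℕ) (base : Finset V → ℕ),
    128 * t + 70 ≤ s → Dsj I → (∀ K ∈ I, Z K ⊆ K ∧ (Z K).card = 4 * s) →
    (∀ K ∈ I, ∀ z ∈ Z K, nb G (ZZ I Z \ Z K) z ≤ t) →
    ∃ (ρ : V → ℕ) (b : Finset V → ℕ),
      (∀ K ∈ I, ∀ z ∈ Z K, ρ z < 4 * s) ∧
      (∀ K ∈ I, ∀ z ∈ Z K, ∀ z' ∈ Z K, ρ z = ρ z' → z = z') ∧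
      (∀ K ∈ I, ∀ z ∈ Z K, ∀ z' ∈ Z K, ρ z / s < ρ z' / s → a z ≤ a z') ∧
      (∀ K ∈ I, ∀ z ∈ Z K, ρ z < 2 * s → a z ≤ b K) ∧
      (∀ K ∈ I, ∀ z ∈ Z K, 2 * s ≤ ρ z → b K ≤ a z) ∧
      (∀ K ∈ I, ∃ z ∈ Z K, b K = a z) ∧
      ∀ K ∈ I, ∀ K' ∈ I, K ≠ K' → ∀ z ∈ Z K, ∀ z' ∈ Z K', G.Adj z z' →
        base K + b K + 1 + ρ z ≠ base K' + b K' + 1 + ρ z'

/-! ### TOP: edge colourings with tight lists at the mids -/

/-- LIG: greedy edge colouring, balanced on every set `P ∈ J` (no edges inside `P`) -/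
def S_LIG : Prop :=
  ∀ (V : Type) [Fintype V] (Λ : SimpleGraph V) (J : Finset (Finset V)) (l σ bal N : ℕ),
    1 ≤ bal → Dsj J → (∀ P ∈ J, ∀ u ∈ P, ∀ v ∈ P, ¬ Λ.Adj u v) →
    (∀ v, nb Λ univ v ≤ l) → (∀ P ∈ J, ∑ u ∈ P, nb Λ univ u ≤ σ * bal) →
    2 * l + 2 * σ + 1 ≤ N →
    ∃ c : V → V → ℕ, Prp Λ N c ∧
      ∀ P ∈ J, ∀ n : ℕ, (P.filter (fun u => ∃ v, Λ.Adj u v ∧ c u v = n)).card ≤ bal

/-- HAL: the edges between `M` and `P` (complete bipartite) coloured vertex by vertex with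
Hall's theorem -/
def S_HAL : Prop :=
  ∀ (V : Type) (P M : Finset V) (U Av : V → Finset ℕ) (t bal : ℕ),
    (∀ z ∈ M, P.card ≤ (Av z).card) → (∀ u ∈ P, (U u).card ≤ t) →
    (∀ n : ℕ, (P.filter (fun u => n ∈ U u)).card ≤ bal) → bal + t + 2 * M.card < P.card →
    ∃ f : V → V → ℕ, (∀ z ∈ M, ∀ u ∈ P, f z u ∈ Av z ∧ f z u ∉ U u) ∧
      (∀ z ∈ M, ∀ u ∈ P, ∀ u' ∈ P, f z u = f z u' → u = u') ∧
      ∀ u ∈ P, ∀ z ∈ M, ∀ z' ∈ M, f z u = f z' u → z = z'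

/-- AAE: edge colouring with few forbidden colours (library `NearCommonLists`) -/
def S_AAE : Prop :=
  ∀ η : ℝ, 0 < η → ∃ D0 : ℕ, ∀ D : ℕ, D0 ≤ D → ∀ (V : Type) [Fintype V] (Γ : SimpleGraph V)
    (Fb : V → Finset ℕ) (d h N : ℕ), d ≤ 2 * D → h ≤ D → (∀ v, nb Γ univ v ≤ d) →
    (∀ v, (Fb v).card ≤ h) → (d : ℝ) + 34 * h + η * D ≤ N →
    ∃ c : V → V → ℕ, Prp Γ N c ∧ ∀ u v, Γ.Adj u v → c u v ∉ Fb u ∧ c u v ∉ Fb v

/-- the graph of the edges to be coloured: `A` = ordinary vertices, `Z K ⊆ K` = mids -/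
structure TopData {V : Type} [Fintype V] (E : SimpleGraph V) (A : Finset V)
    (I : Finset (Finset V)) (Z : Finset V → Finset V) (D s t h d : ℕ) : Prop where
  dis : Dsj I
  ZK : ∀ K ∈ I, Z K ⊆ K
  AZ : Disjoint A (ZZ I Z)
  supp : ∀ u v, E.Adj u v → u ∈ A ∨ u ∈ ZZ I Z
  com : ∀ K ∈ I, ∀ z ∈ Z K, ∀ u ∈ A ∩ K, E.Adj z u
  cardZ : ∀ K ∈ I, (Z K).card ≤ 4 * s
  cardA : ∀ K ∈ I, D ≤ 4 * (A ∩ K).card
  cardK : ∀ K ∈ I, K.card ≤ D + 1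
  lz : ∀ K ∈ I, ∀ z ∈ Z K, nb E (univ \ (A ∩ K)) z ≤ 4 * s + t
  lu : ∀ K ∈ I, ∀ u ∈ A ∩ K, nb E (ZZ I Z \ Z K) u ≤ t
  la : ∀ u ∈ A, nb E (ZZ I Z) u ≤ h
  da : ∀ u ∈ A, nb E A u ≤ d

def S_TOP : Prop :=
  ∀ η : ℝ, 0 < η → ∃ D0 : ℕ, ∀ D : ℕ, D0 ≤ D → ∀ (V : Type) [Fintype V] (E : SimpleGraph V)
    (A : Finset V) (I : Finset (Finset V)) (Z : Finset V → Finset V) (s t h d N : ℕ)
    (X : V → ℕ), TopData E A I Z D s t h d →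
    1000 * s ≤ D → 1000 * t ≤ D → 1000 * h ≤ D → d ≤ 2 * D →
    (d : ℝ) + 34 * h + η * D ≤ N →
    (∀ z ∈ ZZ I Z, nb E univ z ≤ X z ∧ X z ≤ N) →
    ∃ f : V → V → ℕ, Prp E N f ∧ ∀ z ∈ ZZ I Z, ∀ u, E.Adj z u → f z u < X z

/-! ### ASM: the final labelling -/

/-- a `(p,1)`-total labelling of span `l` -/
def TotLab {V : Type} (G : SimpleGraph V) (p l : ℕ) : Prop :=
  ∃ (fV : V → ℕ) (fE : Sym2 V → ℕ),
    (∀ v, fV v ≤ l) ∧ (∀ e ∈ G.edgeSet, fE e ≤ l) ∧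
    (∀ u v, G.Adj u v → fV u ≠ fV v) ∧
    (∀ u v w, G.Adj u v → G.Adj u w → v ≠ w → fE s(u, v) ≠ fE s(u, w)) ∧
    (∀ u v, G.Adj u v → (p : ℤ) ≤ |(fV u : ℤ) - (fE s(u, v) : ℤ)|)

/-- from the colourings to the labelling: the vertices are in `A` (label `x`), in `B` (label
`D + 2 p - 1 - x`) or in `M` (label `p + D - X`); the edges are in `E1` (label
`D + 2 p - 1 - f1`), in `E2` (label `f2`) or between `A` and `B` (label `p + e`) -/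
def S_ASM : Prop :=
  ∀ (V : Type) [Fintype V] (G E1 E2 : SimpleGraph V) (A B M : Finset V) (D p : ℕ)
    (x X : V → ℕ) (e f1 f2 : V → V → ℕ),
    1 ≤ p → (∀ v, v ∈ A ∨ v ∈ B ∨ v ∈ M) → Disjoint A B → Disjoint A M → Disjoint B M →
    (∀ v, x v < p ∧ x v ≤ D) → (∀ v ∈ M, 1 ≤ X v ∧ X v ≤ D) →
    (∀ u ∈ A, ∀ v ∈ A, G.Adj u v → x u ≠ x v) → (∀ u ∈ B, ∀ v ∈ B, G.Adj u v → x u ≠ x v) →
    (∀ u ∈ M, ∀ v ∈ M, G.Adj u v → X u ≠ X v) →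
    (∀ u v, G.Adj u v → E1.Adj u v ∨ E2.Adj u v ∨ (u ∈ A ∧ v ∈ B) ∨ (u ∈ B ∧ v ∈ A)) →
    (∀ u v, E1.Adj u v → u ∉ B) → (∀ u v, E2.Adj u v → u ∉ A) →
    (∀ u v, E1.Adj u v → ¬ E2.Adj u v) →
    (∀ u v, e u v = e v u) →
    (∀ u ∈ A, ∀ v ∈ B, G.Adj u v → x u ≤ e u v ∧ e u v + x v + 1 ≤ D) →
    (∀ u ∈ A, ∀ v ∈ B, ∀ v' ∈ B, G.Adj u v → G.Adj u v' → v ≠ v' → e u v ≠ e u v') →
    (∀ u ∈ B, ∀ v ∈ A, ∀ v' ∈ A, G.Adj u v → G.Adj u v' → v ≠ v' → e u v ≠ e u v') →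
    Prp E1 p f1 → Prp E2 p f2 →
    (∀ z ∈ M, ∀ u, E1.Adj z u → f1 z u < X z) →
    (∀ z ∈ M, ∀ u, E2.Adj z u → f2 z u < D + 1 - X z) →
    TotLab G p (D + 2 * p - 1)

/-- the theorem -/
def S_FIN : Prop :=
  ∀ ε : ℝ, 0 < ε → ∃ D0 : ℕ, ∀ D : ℕ, D0 ≤ D → ∀ p : ℕ, (1 / 2 + ε) * (D : ℝ) ≤ p →
    ∀ (V : Type) [Fintype V] (G : SimpleGraph V), (∀ v, nb G univ v ≤ D) →
      TotLab G p (D + 2 * p - 1)

end Pool.Agent.H21.HV
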