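import Pool.Agent.H21.HV.Defs

set_option autoImplicit false

/-!
# FIN: the assembly
-/

namespace Pool.Agent.H21.HV

open Classical Finset

/-- the body of `S_TOP` -/
def TopAt (η : ℝ) (D : ℕ) : Prop :=
  ∀ (V : Type) [Fintype V] (E : SimpleGraph V)
    (A : Finset V) (I : Finset (Finset V)) (Z : Finset V → Finset V) (s t h d N : ℕ)
    (X : V → ℕ), TopData E A I Z D s t h d →
    1000 * s ≤ D → 1000 * t ≤ D → 1000 * h ≤ D → d ≤ 2 * D →
    (d : ℝ) + 34 * h + η * D ≤ N →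
    (∀ z ∈ ZZ I Z, nb E univ z ≤ X z ∧ X z ≤ N) →
    ∃ f : V → V → ℕ, Prp E N f ∧ ∀ z ∈ ZZ I Z, ∀ u, E.Adj z u → f z u < X z

/-- the graph without the edges meeting `S` -/
def Gp {V : Type} (G : SimpleGraph V) (S : Finset V) : SimpleGraph V where
  Adj u v := G.Adj u v ∧ u ∉ S ∧ v ∉ S
  symm := ⟨fun _ _ h => ⟨h.1.symm, h.2.2, h.2.1⟩⟩
  loopless := ⟨fun _ h => G.loopless.irrefl _ h.1⟩

/-- the vertices outside `S` with types in `Y` -/
noncomputable def side {V : Type} [Fintype V] (S : Finset V) (T : V → ℕ) (Y : Finset ℕ) :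
    Finset V :=
  univ.filter (fun v => T v ∈ Y ∧ v ∉ S)

lemma mem_ZZ {V : Type} {I : Finset (Finset V)} {Z : Finset V → Finset V} {z : V} :
    z ∈ ZZ I Z ↔ ∃ K ∈ I, z ∈ Z K := by
  unfold ZZ
  rw [mem_biUnion]

lemma nb_mono {V : Type} {G : SimpleGraph V} {S S' : Finset V} (h : S ⊆ S') (v : V) :
    nb G S v ≤ nb G S' v := by
  unfold nb
  exact card_le_card (filter_subset_filter _ h)

lemma nb_le {V : Type} {G E : SimpleGraph V} {S : Finset V} {v : V}
    (h : ∀ u ∈ S, E.Adj v u → G.Adj v u) : nb E S v ≤ nb G S v := by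
  unfold nb
  apply card_le_card
  intro u hu
  rw [mem_filter] at hu ⊢
  exact ⟨hu.1, h u hu.1 hu.2⟩

/-- the data of the assembly -/
structure Ctx {V : Type} [Fintype V] (G : SimpleGraph V) (D p s t θ h q m w k : ℕ)
    (I : Finset (Finset V)) (Z : Finset V → Finset V) (T c : V → ℕ) : Prop where
  hD : ∀ v, nb G univ v ≤ D
  hI : ∀ K ∈ I, θ ≤ K.card ∧ Clq G K
  hdis : Dsj I
  hZ : ∀ K ∈ I, Z K ⊆ K ∧ (Z K).card = 4 * s
  hh : ∀ v, nb G (ZZ I Z) v ≤ h
  hTy : Typed (Gp G (ZZ I Z)) D q m w k T c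
  hθ : θ + t = D + 1
  hs : Even s
  hst : 128 * t + 70 ≤ s
  hs1000 : 1000 * s ≤ D
  ht1000 : 1000 * t ≤ D
  hh1000 : 1000 * h ≤ D
  N1 : m * (w + 1) + t + 4 * s ≤ p
  N2 : m * (w + 1) + t + 4 * s ≤ D
  N3 : D + 16 * s + 4 * (m * (w + 1)) + 4 * t ≤ 4 * D + 4
  N4 : m * w ≤ 2 * D

section

variable {V : Type} [Fintype V] {G : SimpleGraph V} {D p s t θ h q m w k : ℕ}
    {I : Finset (Finset V)} {Z : Finset V → Finset V} {T c : V → ℕ}

lemma Ctx.sub (H : Ctx G D p s t θ h q m w k I Z T c) {K : Finset V} (hK : K ∈ I) : Z K ⊆ K :=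
  (H.hZ K hK).1

lemma Ctx.inZ (H : Ctx G D p s t θ h q m w k I Z T c) {K : Finset V} (hK : K ∈ I) {z : V}
    (hz : z ∈ K) (hzz : z ∈ ZZ I Z) : z ∈ Z K := by
  rw [mem_ZZ] at hzz
  obtain ⟨K', hK', hz'⟩ := hzz
  by_cases hKK : K = K'
  · rw [hKK]; exact hz'
  · exact absurd (H.sub hK' hz') (disjoint_left.1 (H.hdis K hK K' hK' hKK) hz)

lemma Ctx.uniq (H : Ctx G D p s t θ h q m w k I Z T c) {K K' : Finset V} (hK : K ∈ I)
    (hK' : K' ∈ I) {z : V} (hz : z ∈ K) (hz' : z ∈ K') : K = K' := by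
  by_contra hKK
  exact disjoint_left.1 (H.hdis K hK K' hK' hKK) hz hz'

lemma Ctx.cardK (H : Ctx G D p s t θ h q m w k I Z T c) {K : Finset V} (hK : K ∈ I) :
    K.card ≤ D + 1 := by
  rcases K.eq_empty_or_nonempty with h0 | ⟨z, hz⟩
  · rw [h0]; simp
  · have h1 : K.erase z ⊆ univ.filter (fun u => G.Adj z u) := by
      intro u hu
      rw [mem_erase] at hu
      rw [mem_filter]
      exact ⟨mem_univ _, (H.hI K hK).2 z hz u hu.2 (Ne.symm hu.1)⟩
    have h2 := card_le_card h1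
    rw [card_erase_of_mem hz] at h2
    have h3 := H.hD z
    unfold nb at h3
    omega

lemma Ctx.out (H : Ctx G D p s t θ h q m w k I Z T c) {K : Finset V} (hK : K ∈ I) {z : V}
    (hz : z ∈ K) {S : Finset V} (hS : Disjoint S K) : nb G S z ≤ t := by
  have h1 : S.filter (fun u => G.Adj z u) ∪ K.erase z ⊆ univ.filter (fun u => G.Adj z u) := by
    intro u hu
    rw [mem_union] at hu
    rw [mem_filter]
    refine ⟨mem_univ _, ?_⟩
    rcases hu with hu | hu
    · exact (mem_filter.1 hu).2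
    · rw [mem_erase] at hu
      exact (H.hI K hK).2 z hz u hu.2 (Ne.symm hu.1)
  have h2 := card_le_card h1
  rw [card_union_of_disjoint, card_erase_of_mem hz] at h2
  · have h3 := H.hD z
    have h4 := (H.hI K hK).1
    have h5 := H.hθ
    have h6 : 1 ≤ K.card := card_pos.2 ⟨z, hz⟩
    unfold nb at h3 ⊢
    omega
  · rw [disjoint_left]
    intro u hu hu'
    exact disjoint_left.1 hS (mem_filter.1 hu).1 (mem_of_mem_erase hu')

lemma Ctx.zout (H : Ctx G D p s t θ h q m w k I Z T c) {K : Finset V} (hK : K ∈ I) :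
    Disjoint (ZZ I Z \ Z K) K := by
  rw [disjoint_left]
  intro z hz hzK
  rw [mem_sdiff] at hz
  exact hz.2 (H.inZ hK hzK hz.1)

/-- a class of types inside a clique -/
lemma Ctx.cls (H : Ctx G D p s t θ h q m w k I Z T c) {K : Finset V} (hK : K ∈ I) (y : ℕ) :
    (K.filter (fun v => T v = y ∧ v ∉ ZZ I Z)).card ≤ w + 1 := by
  rcases (K.filter (fun v => T v = y ∧ v ∉ ZZ I Z)).eq_empty_or_nonempty with h0 | ⟨z, hz⟩
  · rw [h0]; simp
  · have hz' := mem_filter.1 hz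
    have h1 : (K.filter (fun v => T v = y ∧ v ∉ ZZ I Z)).erase z ⊆
        (univ.filter (fun u => T u = y)).filter (fun u => (Gp G (ZZ I Z)).Adj z u) := by
      intro u hu
      rw [mem_erase, mem_filter] at hu
      rw [mem_filter, mem_filter]
      exact ⟨⟨mem_univ _, hu.2.2.1⟩, (H.hI K hK).2 z hz'.1 u hu.2.1 (Ne.symm hu.1), hz'.2.2,
        hu.2.2.2⟩
    have h2 := card_le_card h1
    rw [card_erase_of_mem hz] at h2
    have h3 := H.hTy.hw z y
    unfold nb at h3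
    omega

lemma Ctx.side_card (H : Ctx G D p s t θ h q m w k I Z T c) {K : Finset V} (hK : K ∈ I)
    (Y : Finset ℕ) : (side (ZZ I Z) T Y ∩ K).card ≤ Y.card * (w + 1) := by
  have h1 : side (ZZ I Z) T Y ∩ K ⊆
      Y.biUnion (fun y => K.filter (fun v => T v = y ∧ v ∉ ZZ I Z)) := by
    intro v hv
    rw [mem_inter] at hv
    unfold side at hv
    rw [mem_filter] at hv
    rw [mem_biUnion]
    exact ⟨T v, hv.1.2.1, mem_filter.2 ⟨hv.2, rfl, hv.1.2.2⟩⟩
  refine (card_le_card h1).trans ?_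
  refine card_biUnion_le.trans ?_
  rw [← smul_eq_mul]
  exact sum_le_card_nsmul _ _ _ (fun y _ => H.cls hK y)

lemma Ctx.side_nb (H : Ctx G D p s t θ h q m w k I Z T c) (Y : Finset ℕ) {u : V}
    (hu : u ∈ side (ZZ I Z) T Y) : nb G (side (ZZ I Z) T Y) u ≤ Y.card * w := by
  have hu' := (mem_filter.1 hu).2
  have h1 : (side (ZZ I Z) T Y).filter (fun v => G.Adj u v) ⊆
      Y.biUnion (fun y => (univ.filter (fun v => T v = y)).filter
        (fun v => (Gp G (ZZ I Z)).Adj u v)) := by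
    intro v hv
    rw [mem_filter] at hv
    unfold side at hv
    rw [mem_filter] at hv
    rw [mem_biUnion]
    exact ⟨T v, hv.1.2.1, mem_filter.2 ⟨mem_filter.2 ⟨mem_univ _, rfl⟩, hv.2, hu'.2, hv.1.2.2⟩⟩
  refine (card_le_card h1).trans ?_
  refine card_biUnion_le.trans ?_
  rw [← smul_eq_mul]
  exact sum_le_card_nsmul _ _ _ (fun y _ => H.hTy.hw u y)

lemma side_disj (S : Finset V) (Y : Finset ℕ) : Disjoint (side S T Y) S := by
  rw [disjoint_left]
  intro v hv hv'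
  exact (mem_filter.1 hv).2.2 hv'

/-- a lower bound for the part of a clique in a side -/
lemma Ctx.side_low (H : Ctx G D p s t θ h q m w k I Z T c) {K : Finset V} (hK : K ∈ I)
    (Y Y' : Finset ℕ) (hY : ∀ v, T v ∈ Y ∨ T v ∈ Y') (hY' : Y'.card = m) :
    θ ≤ (side (ZZ I Z) T Y ∩ K).card + m * (w + 1) + 4 * s := by
  have h1 : K ⊆ (side (ZZ I Z) T Y ∩ K) ∪ (side (ZZ I Z) T Y' ∩ K) ∪ Z K := by
    intro v hv
    rw [mem_union, mem_union]
    by_cases hz : v ∈ ZZ I Z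
    · right; exact H.inZ hK hv hz
    · left
      rcases hY v with h | h
      · left; exact mem_inter.2 ⟨mem_filter.2 ⟨mem_univ _, h, hz⟩, hv⟩
      · right; exact mem_inter.2 ⟨mem_filter.2 ⟨mem_univ _, h, hz⟩, hv⟩
  have h2 := card_le_card h1
  have h3 := card_union_le ((side (ZZ I Z) T Y ∩ K) ∪ (side (ZZ I Z) T Y' ∩ K)) (Z K)
  have h4 := card_union_le (side (ZZ I Z) T Y ∩ K) (side (ZZ I Z) T Y' ∩ K)
  have h5 := H.side_card hK Y'
  rw [hY'] at h5
  have h6 := (H.hZ K hK).2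
  have h7 := (H.hI K hK).1
  omega

/-- the data for `TOP` -/
lemma Ctx.mkTop (H : Ctx G D p s t θ h q m w k I Z T c) (Y Y' : Finset ℕ)
    (hY : ∀ v, T v ∈ Y ∨ T v ∈ Y') (hYc : Y.card = m) (hYc' : Y'.card = m) (E : SimpleGraph V)
    (hE : ∀ u v, E.Adj u v → G.Adj u v ∧ (u ∈ side (ZZ I Z) T Y ∨ u ∈ ZZ I Z))
    (hcom : ∀ z ∈ ZZ I Z, ∀ u ∈ side (ZZ I Z) T Y, G.Adj z u → E.Adj z u) :
    TopData E (side (ZZ I Z) T Y) I Z D s t h (m * w) := by
  refine ⟨H.hdis, fun K hK => H.sub hK, side_disj _ _, fun u v huv => (hE u v huv).2, ?_,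
    fun K hK => (H.hZ K hK).2.le, ?_, fun K hK => H.cardK hK, ?_, ?_, ?_, ?_⟩
  · intro K hK z hz u hu
    rw [mem_inter] at hu
    have hzz : z ∈ ZZ I Z := mem_ZZ.2 ⟨K, hK, hz⟩
    refine hcom z hzz u hu.1 ((H.hI K hK).2 z (H.sub hK hz) u hu.2 ?_)
    rintro rfl
    exact disjoint_left.1 (side_disj _ _) hu.1 hzz
  · intro K hK
    have h1 := H.side_low hK Y Y' hY hYc'
    have h2 := H.N3
    have h3 := H.hθ
    omega
  · intro K hK z hz
    have h1 : (univ \ (side (ZZ I Z) T Y ∩ K)).filter (fun u => E.Adj z u) ⊆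
        Z K ∪ (univ \ K).filter (fun u => G.Adj z u) := by
      intro u hu
      rw [mem_filter, mem_sdiff, mem_inter] at hu
      rw [mem_union, mem_filter, mem_sdiff]
      by_cases huK : u ∈ K
      · left
        rcases (hE u z hu.2.symm).2 with h | h
        · exact absurd ⟨h, huK⟩ hu.1.2
        · exact H.inZ hK huK h
      · right
        exact ⟨⟨mem_univ _, huK⟩, (hE z u hu.2).1⟩
    have h2 := card_le_card h1
    have h3 := card_union_le (Z K) ((univ \ K).filter (fun u => G.Adj z u))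
    have h4 : nb G (univ \ K) z ≤ t := H.out hK (H.sub hK hz) sdiff_disjoint
    have h5 := (H.hZ K hK).2
    unfold nb at h4 ⊢
    omega
  · intro K hK u hu
    rw [mem_inter] at hu
    exact (nb_le (fun v _ hv => (hE u v hv).1)).trans (H.out hK hu.2 (H.zout hK))
  · intro u _
    exact (nb_le (fun v _ hv => (hE u v hv).1)).trans (H.hh u)
  · intro u hu
    have h1 := H.side_nb Y hu
    rw [hYc] at h1
    exact (nb_le (fun v _ hv => (hE u v hv).1)).trans h1

end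

end Pool.Agent.H21.HV
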