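import Pool.Agent.H21.HV.Fin

set_option autoImplicit false

/-!
# FIN: the assembly, second part
-/

namespace Pool.Agent.H21.HV

open Classical Finset

/-- the edges coloured from above -/
def EE1 {V : Type} (G : SimpleGraph V) (A M : Finset V) (I : Finset (Finset V))
    (Z : Finset V → Finset V) (TK : Finset V → SimpleGraph V) : SimpleGraph V where
  Adj u v := G.Adj u v ∧ (u ∈ A ∨ u ∈ M) ∧ (v ∈ A ∨ v ∈ M) ∧
    ∀ K ∈ I, u ∈ Z K → v ∈ Z K → (TK K).Adj u v
  symm := ⟨fun _ _ h => ⟨h.1.symm, h.2.2.1, h.2.1, fun K hK hu hv => (h.2.2.2 K hK hv hu).symm⟩⟩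
  loopless := ⟨fun _ h => G.loopless.irrefl _ h.1⟩

/-- the edges coloured from below -/
def EE2 {V : Type} (G : SimpleGraph V) (B M : Finset V) (I : Finset (Finset V))
    (Z : Finset V → Finset V) (TK : Finset V → SimpleGraph V) : SimpleGraph V where
  Adj u v := G.Adj u v ∧ (u ∈ B ∨ u ∈ M) ∧ (v ∈ B ∨ v ∈ M) ∧
    (u ∈ M → v ∈ M → ∃ K ∈ I, u ∈ Z K ∧ v ∈ Z K ∧ ¬ (TK K).Adj u v)
  symm := ⟨fun _ _ h => ⟨h.1.symm, h.2.2.1, h.2.1, fun hu hv => by
    obtain ⟨K, hK, h1, h2, h3⟩ := h.2.2.2 hv hu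
    exact ⟨K, hK, h2, h1, fun h4 => h3 h4.symm⟩⟩⟩
  loopless := ⟨fun _ h => G.loopless.irrefl _ h.1⟩

section

variable {V : Type} [Fintype V] {G : SimpleGraph V} {D p s t θ h q m w k : ℕ}
    {I : Finset (Finset V)} {Z : Finset V → Finset V} {T c : V → ℕ}

lemma Ctx.deg1 (H : Ctx G D p s t θ h q m w k I Z T c) (A : Finset V)
    (hA : Disjoint A (ZZ I Z)) (TK : Finset V → SimpleGraph V)
    {K : Finset V} (hK : K ∈ I) {z : V} (hz : z ∈ Z K) :
    nb (EE1 G A (ZZ I Z) I Z TK) univ z =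
      (A ∩ K).card + nb G ((A ∪ ZZ I Z) \ K) z + nb (TK K) (Z K) z := by
  have hzz : z ∈ ZZ I Z := mem_ZZ.2 ⟨K, hK, hz⟩
  have h1 : univ.filter (fun u => (EE1 G A (ZZ I Z) I Z TK).Adj z u) =
      ((A ∩ K) ∪ ((A ∪ ZZ I Z) \ K).filter (fun u => G.Adj z u)) ∪
        (Z K).filter (fun u => (TK K).Adj z u) := by
    ext u
    rw [mem_union, mem_union, mem_filter, mem_filter, mem_filter, mem_inter, mem_sdiff, mem_union]
    constructor
    · rintro ⟨_, h1, h2, h3, h4⟩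
      by_cases huK : u ∈ K
      · rcases h3 with h3 | h3
        · left; left; exact ⟨h3, huK⟩
        · right
          have h5 := H.inZ hK huK h3
          exact ⟨h5, h4 K hK hz h5⟩
      · left; right; exact ⟨⟨h3, huK⟩, h1⟩
    · rintro ((⟨h1, h2⟩ | ⟨⟨h1, h2⟩, h3⟩) | ⟨h1, h2⟩)
      · have h3 : u ∉ ZZ I Z := disjoint_left.1 hA h1
        refine ⟨mem_univ _, (H.hI K hK).2 z (H.sub hK hz) u h2 ?_, Or.inr hzz, Or.inl h1, ?_⟩
        · rintro rfl; exact h3 hzz
        · intro K' hK' _ h5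
          exact absurd (mem_ZZ.2 ⟨K', hK', h5⟩) h3
      · refine ⟨mem_univ _, h3, Or.inr hzz, h1, ?_⟩
        intro K' hK' h4 h5
        have h6 := H.uniq hK hK' (H.sub hK hz) (H.sub hK' h4)
        exact absurd (H.sub hK (h6 ▸ h5)) h2
      · refine ⟨mem_univ _, (H.hI K hK).2 z (H.sub hK hz) u (H.sub hK h1) h2.ne, Or.inr hzz,
          Or.inr (mem_ZZ.2 ⟨K, hK, h1⟩), ?_⟩
        intro K' hK' h4 h5
        have h6 := H.uniq hK hK' (H.sub hK hz) (H.sub hK' h4)
        rw [← h6]; exact h2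
  unfold nb
  rw [h1, card_union_of_disjoint, card_union_of_disjoint]
  · rw [disjoint_left]
    intro u hu hu'
    rw [mem_inter] at hu
    rw [mem_filter, mem_sdiff] at hu'
    exact hu'.1.2 hu.2
  · rw [disjoint_left]
    intro u hu hu'
    have h2 := (mem_filter.1 hu').1
    have h3 := H.sub hK h2
    rw [mem_union] at hu
    rcases hu with hu | hu
    · exact disjoint_left.1 hA (mem_inter.1 hu).1 (mem_ZZ.2 ⟨K, hK, h2⟩)
    · exact (mem_sdiff.1 (mem_filter.1 hu).1).2 h3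

lemma Ctx.deg12 (H : Ctx G D p s t θ h q m w k I Z T c) (A B : Finset V)
    (hAB : Disjoint A B) (hA : Disjoint A (ZZ I Z)) (hB : Disjoint B (ZZ I Z))
    (TK : Finset V → SimpleGraph V) (z : V) :
    nb (EE1 G A (ZZ I Z) I Z TK) univ z + nb (EE2 G B (ZZ I Z) I Z TK) univ z ≤ D := by
  refine le_trans ?_ (H.hD z)
  unfold nb
  rw [← card_union_of_disjoint]
  · apply card_le_card
    intro u hu
    rw [mem_union, mem_filter, mem_filter] at hu
    rw [mem_filter]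
    rcases hu with hu | hu
    · exact ⟨mem_univ _, hu.2.1⟩
    · exact ⟨mem_univ _, hu.2.1⟩
  · rw [disjoint_left]
    intro u hu hu'
    obtain ⟨-, -, h1, h2, h3⟩ := mem_filter.1 hu
    obtain ⟨-, -, h1', h2', h3'⟩ := mem_filter.1 hu'
    have hz : z ∈ ZZ I Z := by
      rcases h1 with h1 | h1
      · rcases h1' with h1' | h1'
        · exact absurd h1' (disjoint_left.1 hAB h1)
        · exact h1'
      · exact h1
    have hu : u ∈ ZZ I Z := by
      rcases h2 with h2 | h2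
      · rcases h2' with h2' | h2'
        · exact absurd h2' (disjoint_left.1 hAB h2)
        · exact h2'
      · exact h2
    obtain ⟨K, hK, h4, h5, h6⟩ := h3' hz hu
    exact h6 (h3 K hK h4 h5)

/-- the clique of a vertex -/
noncomputable def kk (I : Finset (Finset V)) (z : V) : Finset V :=
  if h : ∃ K ∈ I, z ∈ K then h.choose else ∅

lemma Ctx.kk_eq (H : Ctx G D p s t θ h q m w k I Z T c) {K : Finset V} (hK : K ∈ I) {z : V}
    (hz : z ∈ K) : kk I z = K := by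
  have h1 : ∃ K ∈ I, z ∈ K := ⟨K, hK, hz⟩
  unfold kk
  rw [dif_pos h1]
  exact H.uniq h1.choose_spec.1 hK h1.choose_spec.2 hz

set_option maxHeartbeats 2000000 in
theorem Ctx.core (H : Ctx G D p s t θ h q m w k I Z T c) (hCRO : S_CRO) (hTGR : S_TGR)
    (hLAB : S_LAB) (hASM : S_ASM) (η : ℝ) (hTop : TopAt η D)
    (hN : ((m * w : ℕ) : ℝ) + 34 * h + η * D ≤ p) : TotLab G p (D + 2 * p - 1) := by
  obtain ⟨x, e, hx1, hx2, he1, he2, he3⟩ := hCRO V (Gp G (ZZ I Z)) D q m w k T c H.hTy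
  obtain ⟨M, hM⟩ : ∃ M, M = ZZ I Z := ⟨_, rfl⟩
  obtain ⟨A, hA⟩ : ∃ A, A = side (ZZ I Z) T (range m) := ⟨_, rfl⟩
  obtain ⟨B, hB⟩ : ∃ B, B = side (ZZ I Z) T (Ico m (2 * m)) := ⟨_, rfl⟩
  have hYY : ∀ v, T v ∈ range m ∨ T v ∈ Ico m (2 * m) := by
    intro v
    rw [mem_range, mem_Ico]
    have := H.hTy.hT v
    omega
  have hYY' : ∀ v, T v ∈ Ico m (2 * m) ∨ T v ∈ range m := fun v => (hYY v).symm
  have hc1 : (range m).card = m := card_range m
  have hc2 : (Ico m (2 * m)).card = m := by rw [Nat.card_Ico]; omega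
  have hAM : Disjoint A (ZZ I Z) := by rw [hA]; exact side_disj _ _
  have hBM : Disjoint B (ZZ I Z) := by rw [hB]; exact side_disj _ _
  have memA : ∀ v, v ∈ A ↔ T v < m ∧ v ∉ ZZ I Z := by
    intro v
    rw [hA]; unfold side
    rw [mem_filter, mem_range]
    exact ⟨fun h => h.2, fun h => ⟨mem_univ _, h⟩⟩
  have memB : ∀ v, v ∈ B ↔ m ≤ T v ∧ v ∉ ZZ I Z := by
    intro v
    rw [hB]; unfold side
    rw [mem_filter, mem_Ico]
    exact ⟨fun h => ⟨h.2.1.1, h.2.2⟩, fun h => ⟨mem_univ _, ⟨h.1, H.hTy.hT v⟩, h.2⟩⟩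
  have hAB : Disjoint A B := by
    rw [disjoint_left]
    intro v hv hv'
    have h1 := (memA v).1 hv
    have h2 := (memB v).1 hv'
    omega
  have hst := H.hst
  have N1 := H.N1
  have N2 := H.N2
  have N3 := H.N3
  have hθ := H.hθ
  obtain ⟨a, ha⟩ : ∃ a : V → ℕ, a = fun z => nb G ((A ∪ ZZ I Z) \ kk I z) z := ⟨_, rfl⟩
  have ha' : ∀ K ∈ I, ∀ z ∈ Z K, a z = nb G ((A ∪ ZZ I Z) \ K) z := by
    intro K hK z hz
    rw [ha]
    simp only
    rw [H.kk_eq hK (H.sub hK hz)]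
  have hat : ∀ K ∈ I, ∀ z ∈ Z K, a z ≤ t := by
    intro K hK z hz
    rw [ha' K hK z hz]
    exact H.out hK (H.sub hK hz) sdiff_disjoint
  obtain ⟨ρ, b, r1, r2, r3, r4, r5, r6, r7⟩ := hLAB V G I Z s t a (fun K => (A ∩ K).card) H.hst
    H.hdis H.hZ (fun K hK z hz => H.out hK (H.sub hK hz) (H.zout hK))
  have hbt : ∀ K ∈ I, b K ≤ t := by
    intro K hK
    obtain ⟨z, hz, hbz⟩ := r6 K hK
    rw [hbz]; exact hat K hK z hz
  have hT0 : ∀ K : Finset V, ∃ TK : SimpleGraph V, K ∈ I →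
      ((∀ x y, TK.Adj x y → x ∈ Z K ∧ y ∈ Z K) ∧
      ∀ z ∈ Z K, (nb TK (Z K) z : ℤ) = ρ z - ((a z : ℤ) - b K) ∨
        (nb TK (Z K) z : ℤ) = ρ z - ((a z : ℤ) - b K) + 1) := by
    intro K
    by_cases hK : K ∈ I
    · obtain ⟨TK, h1, h2⟩ := hTGR V (Z K) s t ρ (fun z => (a z : ℤ) - b K) H.hs (by omega)
        (H.hZ K hK).2 (r1 K hK) (r2 K hK) (by
          intro z hz
          have h1 := hat K hK z hz
          have h2 := hbt K hK
          rw [abs_le]
          constructor <;> omega) (by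
          intro z hz z' hz' h
          have := r3 K hK z hz z' hz' h
          omega) (by
          intro z hz h
          have := r4 K hK z hz h
          omega) (by
          intro z hz h
          have := r5 K hK z hz h
          omega)
      exact ⟨TK, fun _ => ⟨h1, h2⟩⟩
    · exact ⟨⊥, fun h => absurd h hK⟩
  choose TK hTK using hT0
  obtain ⟨E1, hE1⟩ : ∃ E1, E1 = EE1 G A (ZZ I Z) I Z TK := ⟨_, rfl⟩
  obtain ⟨E2, hE2⟩ : ∃ E2, E2 = EE2 G B (ZZ I Z) I Z TK := ⟨_, rfl⟩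
  obtain ⟨X, hX⟩ : ∃ X : V → ℕ, X = fun z => (A ∩ kk I z).card + b (kk I z) + 1 + ρ z := ⟨_, rfl⟩
  have hX' : ∀ K ∈ I, ∀ z ∈ Z K, X z = (A ∩ K).card + b K + 1 + ρ z := by
    intro K hK z hz
    rw [hX]
    simp only
    rw [H.kk_eq hK (H.sub hK hz)]
  have hAup : ∀ K ∈ I, (A ∩ K).card ≤ m * (w + 1) := by
    intro K hK
    have h1 := H.side_card hK (range m)
    rw [hc1] at h1
    rw [hA]; exact h1
  have hAlo : ∀ K ∈ I, θ ≤ (A ∩ K).card + m * (w + 1) + 4 * s := by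
    intro K hK
    rw [hA]
    exact H.side_low hK (range m) (Ico m (2 * m)) hYY hc2
  have hXup : ∀ z ∈ ZZ I Z, X z ≤ m * (w + 1) + t + 4 * s := by
    intro z hz
    obtain ⟨K, hK, hzK⟩ := mem_ZZ.1 hz
    rw [hX' K hK z hzK]
    have h1 := hAup K hK
    have h2 := hbt K hK
    have h3 := r1 K hK z hzK
    omega
  have hXlo : ∀ z ∈ ZZ I Z, θ + 1 ≤ X z + m * (w + 1) + 4 * s := by
    intro z hz
    obtain ⟨K, hK, hzK⟩ := mem_ZZ.1 hz
    rw [hX' K hK z hzK]
    have h1 := hAlo K hK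
    omega
  have hd1 : ∀ z ∈ ZZ I Z, nb E1 univ z ≤ X z ∧ X z ≤ nb E1 univ z + 1 := by
    intro z hz
    obtain ⟨K, hK, hzK⟩ := mem_ZZ.1 hz
    rw [hX' K hK z hzK, hE1, H.deg1 A hAM TK hK hzK, ← ha' K hK z hzK]
    have h1 := (hTK K hK).2 z hzK
    rcases h1 with h1 | h1 <;> constructor <;> omega
  have hd2 : ∀ z ∈ ZZ I Z, nb E2 univ z ≤ D + 1 - X z := by
    intro z hz
    have h1 := hd1 z hz
    have h2 := H.deg12 A B hAB hAM hBM TK z
    rw [← hE1, ← hE2] at h2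
    omega
  have hT1 : TopData E1 A I Z D s t h (m * w) := by
    rw [hA]
    apply H.mkTop (range m) (Ico m (2 * m)) hYY hc1 hc2 E1
    · intro u v huv
      rw [hE1] at huv
      rw [← hA]
      exact ⟨huv.1, huv.2.1⟩
    · intro z hz u hu hzu
      rw [← hA] at hu
      rw [hE1]
      refine ⟨hzu, Or.inr hz, Or.inl hu, ?_⟩
      intro K hK _ h2
      exact absurd (mem_ZZ.2 ⟨K, hK, h2⟩) (disjoint_left.1 hAM hu)
  have hT2 : TopData E2 B I Z D s t h (m * w) := by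
    rw [hB]
    apply H.mkTop (Ico m (2 * m)) (range m) hYY' hc2 hc1 E2
    · intro u v huv
      rw [hE2] at huv
      rw [← hB]
      exact ⟨huv.1, huv.2.1⟩
    · intro z hz u hu hzu
      rw [← hB] at hu
      rw [hE2]
      refine ⟨hzu, Or.inr hz, Or.inl hu, ?_⟩
      intro _ h2
      exact absurd h2 (disjoint_left.1 hBM hu)
  obtain ⟨f1, hf1, hf1'⟩ := hTop V E1 A I Z s t h (m * w) p X hT1 H.hs1000 H.ht1000 H.hh1000
    H.N4 hN (fun z hz => ⟨(hd1 z hz).1, by have := hXup z hz; omega⟩)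
  obtain ⟨f2, hf2, hf2'⟩ := hTop V E2 B I Z s t h (m * w) p (fun z => D + 1 - X z) hT2 H.hs1000
    H.ht1000 H.hh1000 H.N4 hN (fun z hz => ⟨hd2 z hz, by
      have := hXlo z hz
      show D + 1 - X z ≤ p
      omega⟩)
  have hmk : m * k ≤ m * (w + 1) := Nat.mul_le_mul_left _ H.hTy.hkw
  refine hASM V G E1 E2 A B (ZZ I Z) D p x X e f1 f2 (by omega) ?_ hAB hAM hBM ?_ ?_ ?_ ?_ ?_ ?_
    ?_ ?_ ?_ he1 ?_ ?_ ?_ hf1 hf2 hf1' hf2'
  · intro v
    by_cases hv : v ∈ ZZ I Z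
    · right; right; exact hv
    · by_cases hv' : T v < m
      · left; exact (memA v).2 ⟨hv', hv⟩
      · right; left; exact (memB v).2 ⟨not_lt.1 hv', hv⟩
  · intro v
    have := hx1 v
    omega
  · intro v hv
    have h1 := hXup v hv
    obtain ⟨K, hK, hzK⟩ := mem_ZZ.1 hv
    have h2 := hX' K hK v hzK
    omega
  · intro u hu v hv huv
    rw [memA] at hu hv
    exact hx2 u v ⟨huv, hu.2, hv.2⟩ ⟨fun _ => hv.1, fun _ => hu.1⟩
  · intro u hu v hv huv
    rw [memB] at hu hv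
    exact hx2 u v ⟨huv, hu.2, hv.2⟩ ⟨fun h => absurd h (not_lt.2 hu.1),
      fun h => absurd h (not_lt.2 hv.1)⟩
  · intro u hu v hv huv
    obtain ⟨K, hK, huK⟩ := mem_ZZ.1 hu
    obtain ⟨K', hK', hvK⟩ := mem_ZZ.1 hv
    rw [hX' K hK u huK, hX' K' hK' v hvK]
    by_cases hKK : K = K'
    · subst hKK
      intro h
      have h1 : ρ u = ρ v := by omega
      exact huv.ne (r2 K hK u huK v hvK h1)
    · exact r7 K hK K' hK' hKK u huK v hvK huv
  · intro u v huv
    by_cases hu : u ∈ ZZ I Z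
    · by_cases hv : v ∈ ZZ I Z
      · by_cases hK : ∃ K ∈ I, u ∈ Z K ∧ v ∈ Z K ∧ ¬ (TK K).Adj u v
        · right; left
          rw [hE2]
          exact ⟨huv, Or.inr hu, Or.inr hv, fun _ _ => hK⟩
        · left
          rw [hE1]
          refine ⟨huv, Or.inr hu, Or.inr hv, ?_⟩
          intro K hK' h1 h2
          by_contra h3
          exact hK ⟨K, hK', h1, h2, h3⟩
      · by_cases hv' : T v < m
        · left
          rw [hE1]
          refine ⟨huv, Or.inr hu, Or.inl ((memA v).2 ⟨hv', hv⟩), ?_⟩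
          intro K hK' _ h2
          exact absurd (mem_ZZ.2 ⟨K, hK', h2⟩) hv
        · right; left
          rw [hE2]
          exact ⟨huv, Or.inr hu, Or.inl ((memB v).2 ⟨not_lt.1 hv', hv⟩),
            fun _ h => absurd h hv⟩
    · by_cases hv : v ∈ ZZ I Z
      · by_cases hu' : T u < m
        · left
          rw [hE1]
          refine ⟨huv, Or.inl ((memA u).2 ⟨hu', hu⟩), Or.inr hv, ?_⟩
          intro K hK' h1 _
          exact absurd (mem_ZZ.2 ⟨K, hK', h1⟩) hu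
        · right; left
          rw [hE2]
          exact ⟨huv, Or.inl ((memB u).2 ⟨not_lt.1 hu', hu⟩), Or.inr hv,
            fun h _ => absurd h hu⟩
      · by_cases hu' : T u < m
        · by_cases hv' : T v < m
          · left
            rw [hE1]
            refine ⟨huv, Or.inl ((memA u).2 ⟨hu', hu⟩), Or.inl ((memA v).2 ⟨hv', hv⟩), ?_⟩
            intro K hK' h1 _
            exact absurd (mem_ZZ.2 ⟨K, hK', h1⟩) hu
          · right; right; left
            exact ⟨(memA u).2 ⟨hu', hu⟩, (memB v).2 ⟨not_lt.1 hv', hv⟩⟩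
        · by_cases hv' : T v < m
          · right; right; right
            exact ⟨(memB u).2 ⟨not_lt.1 hu', hu⟩, (memA v).2 ⟨hv', hv⟩⟩
          · right; left
            rw [hE2]
            exact ⟨huv, Or.inl ((memB u).2 ⟨not_lt.1 hu', hu⟩),
              Or.inl ((memB v).2 ⟨not_lt.1 hv', hv⟩), fun h _ => absurd h hu⟩
  · intro u v huv hu
    rw [hE1] at huv
    rcases huv.2.1 with h | h
    · exact disjoint_left.1 hAB h hu
    · exact disjoint_left.1 hBM hu h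
  · intro u v huv hu
    rw [hE2] at huv
    rcases huv.2.1 with h | h
    · exact disjoint_left.1 hAB hu h
    · exact disjoint_left.1 hAM hu h
  · intro u v h1 h2
    rw [hE1] at h1
    rw [hE2] at h2
    have hu : u ∈ ZZ I Z := by
      rcases h1.2.1 with h | h
      · rcases h2.2.1 with h' | h'
        · exact absurd h' (disjoint_left.1 hAB h)
        · exact h'
      · exact h
    have hv : v ∈ ZZ I Z := by
      rcases h1.2.2.1 with h | h
      · rcases h2.2.2.1 with h' | h'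
        · exact absurd h' (disjoint_left.1 hAB h)
        · exact h'
      · exact h
    obtain ⟨K, hK, h4, h5, h6⟩ := h2.2.2.2 hu hv
    exact h6 (h1.2.2.2 K hK h4 h5)
  · intro u hu v hv huv
    rw [memA] at hu
    rw [memB] at hv
    exact he2 u v ⟨huv, hu.2, hv.2⟩ hu.1 hv.1
  · intro u hu v hv v' hv' h1 h2 hne
    rw [memA] at hu
    rw [memB] at hv hv'
    exact he3 u v v' ⟨h1, hu.2, hv.2⟩ ⟨h2, hu.2, hv'.2⟩ hne
      (fun h => absurd (h.1 hu.1) (not_lt.2 hv.1)) (fun h => absurd (h.1 hu.1) (not_lt.2 hv'.1))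
  · intro u hu v hv v' hv' h1 h2 hne
    rw [memB] at hu
    rw [memA] at hv hv'
    exact he3 u v v' ⟨h1, hu.2, hv.2⟩ ⟨h2, hu.2, hv'.2⟩ hne
      (fun h => absurd (h.2 hv.1) (not_lt.2 hu.1)) (fun h => absurd (h.2 hv'.1) (not_lt.2 hu.1))

end

end Pool.Agent.H21.HV
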