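import Pool.Agent.H21.HV.Fin2

set_option autoImplicit false

/-!
# FIN: the assembly, third part
-/

namespace Pool.Agent.H21.HV

open Classical Finset

lemma clq_card {V : Type} [Fintype V] {G : SimpleGraph V} {D : ℕ} (hD : ∀ v, nb G univ v ≤ D)
    {Q S : Finset V} {v : V} (hv : v ∈ Q) (hQ : ∀ u ∈ Q, u ≠ v → G.Adj v u)
    (hS : ∀ u ∈ S, u ≠ v → G.Adj v u) (hQS : Disjoint Q S) : Q.card + S.card ≤ D + 1 := by
  rw [← card_union_of_disjoint hQS]
  have h1 : (Q ∪ S).erase v ⊆ univ.filter (fun u => G.Adj v u) := by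
    intro u hu
    rw [mem_erase, mem_union] at hu
    rw [mem_filter]
    refine ⟨mem_univ _, ?_⟩
    rcases hu.2 with h | h
    · exact hQ u h hu.1
    · exact hS u h hu.1
  have h2 := card_le_card h1
  rw [card_erase_of_mem (mem_union_left _ hv)] at h2
  have h3 := hD v
  unfold nb at h3
  omega

/-- cliques of the graph without the edges at the mids -/
lemma clq_Gp {V : Type} [Fintype V] {G : SimpleGraph V} {D s t θ : ℕ} {I : Finset (Finset V)}
    {Z : Finset V → Finset V} (hD : ∀ v, nb G univ v ≤ D)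
    (hI : ∀ K ∈ I, θ ≤ K.card ∧ Clq G K)
    (hmax : ∀ Q : Finset V, Clq G Q → θ ≤ Q.card → ∃ K ∈ I, ¬ Disjoint K Q)
    (hZ : ∀ K ∈ I, Z K ⊆ K ∧ (Z K).card = 4 * s) (hθ : θ + t = D + 1) (hst : 128 * t + 70 ≤ s)
    (hθ2 : 2 ≤ θ) {Q : Finset V} (hQ : Clq (Gp G (ZZ I Z)) Q) : Q.card < θ := by
  by_contra hcon
  rw [not_lt] at hcon
  obtain ⟨K, hK, hdis⟩ := hmax Q (fun x hx y hy hxy => (hQ x hx y hy hxy).1) hcon
  obtain ⟨v, hvK, hvQ⟩ := not_disjoint_iff.1 hdis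
  have hQ2 : ∀ u ∈ Q, u ∉ ZZ I Z := by
    intro u hu
    have h1 : 1 < Q.card := by omega
    obtain ⟨u', hu', hne⟩ := exists_mem_ne h1 u
    exact (hQ u hu u' hu' (Ne.symm hne)).2.1
  have h1 : Disjoint Q (Z K) := by
    rw [disjoint_left]
    intro u hu hu'
    exact hQ2 u hu (mem_ZZ.2 ⟨K, hK, hu'⟩)
  have h2 := clq_card hD hvQ (fun u hu hne => (hQ v hvQ u hu (Ne.symm hne)).1)
    (fun u hu hne => (hI K hK).2 v hvK u ((hZ K hK).1 hu) (Ne.symm hne)) h1
  rw [(hZ K hK).2] at h2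
  omega

theorem t_FIN (hFAM : S_FAM) (hSEL : S_SEL) (hTYP : S_TYP) (hCRO : S_CRO) (hTGR : S_TGR)
    (hLAB : S_LAB) (hTOP : S_TOP) (hASM : S_ASM) : S_FIN := by
  intro ε hε
  obtain ⟨R, hR⟩ : ∃ R : ℕ, R = max 2000 ⌈1000 / ε⌉₊ := ⟨_, rfl⟩
  have hR1 : 2000 ≤ R := by rw [hR]; exact le_max_left _ _
  have hR2 : 1000 ≤ (R : ℝ) * ε := by
    have h1 : 1000 / ε ≤ (R : ℝ) := by
      refine (Nat.le_ceil _).trans ?_
      rw [hR]
      exact_mod_cast le_max_right _ _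
    rwa [div_le_iff₀ hε] at h1
  have hRr : (2000 : ℝ) ≤ R := by exact_mod_cast hR1
  have hR0 : (0 : ℝ) < R := by linarith
  obtain ⟨e', he'⟩ : ∃ e' : ℝ, e' = 1 / (4096 * R) := ⟨_, rfl⟩
  have he0 : 0 < e' := by rw [he']; positivity
  have he1 : e' ≤ 1 := by
    rw [he', div_le_one (by positivity)]
    linarith
  obtain ⟨D1, hD1⟩ := hSEL R (by omega)
  obtain ⟨D2, hD2⟩ := hTYP e' he0 he1
  obtain ⟨D3, hD3⟩ := hTOP (ε / 2) (by positivity)
  refine ⟨D1 + D2 + D3 + 32 * R * 1000, ?_⟩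
  intro D hDD p hp V _ G hD
  have hDD1 : D1 ≤ D := by omega
  have hDD2 : D2 ≤ D := by omega
  have hDD3 : D3 ≤ D := by omega
  have hDD4 : 32 * R * 1000 ≤ D := by omega
  obtain ⟨n, hn⟩ : ∃ n : ℕ, n = D / (32 * R) := ⟨_, rfl⟩
  have hn1 : 32 * R * n ≤ D := by rw [hn]; exact Nat.mul_div_le _ _
  have hn2 : D < 32 * R * (n + 1) := by
    rw [hn]; exact Nat.lt_mul_div_succ _ (by omega)
  have hn3 : 1000 ≤ n := by
    rw [hn, Nat.le_div_iff_mul_le (by omega)]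
    rw [mul_comm]; exact hDD4
  have hnD : 64000 * n ≤ D := le_trans (Nat.mul_le_mul_right _ (by omega)) hn1
  obtain ⟨n', hn'⟩ : ∃ n' : ℕ, n' = n / 128 := ⟨_, rfl⟩
  have hn'1 : 128 * n' ≤ n := by omega
  have hn'2 : n + 1 ≤ 128 * (n' + 1) := by omega
  obtain ⟨θ, hθ⟩ : ∃ θ : ℕ, θ = D - n' := ⟨_, rfl⟩
  obtain ⟨h, hh⟩ : ∃ h : ℕ, h = 2 * D / R := ⟨_, rfl⟩
  have hh1 : R * h ≤ 2 * D := by rw [hh]; exact Nat.mul_div_le _ _
  have hh2 : 2000 * h ≤ R * h := Nat.mul_le_mul_right _ hR1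
  -- real quantities
  obtain ⟨a, ha⟩ : ∃ a : ℝ, a = (D : ℝ) / R := ⟨_, rfl⟩
  have haD : R * a = D := by rw [ha]; field_simp
  have ha0 : 0 ≤ a := by rw [ha]; positivity
  have haD2 : 2000 * a ≤ D := by
    rw [← haD]; exact mul_le_mul_of_nonneg_right hRr ha0
  have haε : 1000 * a ≤ ε * D := by
    rw [← haD]
    calc 1000 * a ≤ R * ε * a := mul_le_mul_of_nonneg_right hR2 ha0
      _ = ε * (R * a) := by ring
  have heD : e' * D = a / 4096 := by
    rw [← haD, he']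
    field_simp
  have hna : 32 * (n : ℝ) ≤ a := by
    have h1 : (32 * R * n : ℝ) ≤ D := by exact_mod_cast hn1
    rw [← haD] at h1
    have h2 : (R : ℝ) * (32 * n) ≤ R * a := by linarith
    exact le_of_mul_le_mul_left h2 hR0
  have hha : (h : ℝ) ≤ 2 * a := by
    have h1 : (R * h : ℝ) ≤ 2 * D := by exact_mod_cast hh1
    rw [← haD] at h1
    have h2 : (R : ℝ) * h ≤ R * (2 * a) := by linarith
    exact le_of_mul_le_mul_left h2 hR0
  have hn1r : (1000 : ℝ) ≤ n := by exact_mod_cast hn3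
  have hθr : (θ : ℝ) + n' = D := by
    have : θ + n' = D := by omega
    exact_mod_cast this
  have heDn : e' * D ≤ n' + 1 := by
    have h1 : D < 4096 * R * (n' + 1) := by
      refine lt_of_lt_of_le hn2 ?_
      calc 32 * R * (n + 1) ≤ 32 * R * (128 * (n' + 1)) := Nat.mul_le_mul_left _ hn'2
        _ = 4096 * R * (n' + 1) := by ring
    have h2 : (D : ℝ) < 4096 * R * (n' + 1) := by exact_mod_cast h1
    rw [he', one_div, ← div_eq_inv_mul, div_le_iff₀ (by positivity)]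
    linarith
  have hn'r : 128 * (n' : ℝ) ≤ n := by exact_mod_cast hn'1
  -- the family of cliques and the mids
  obtain ⟨I, hI, hdis, hmax⟩ := hFAM V G θ (by omega)
  have hcardI : ∀ K ∈ I, D ≤ 2 * K.card ∧ K.card ≤ D + 1 := by
    intro K hK
    have h1 := hI K hK
    refine ⟨by omega, ?_⟩
    obtain ⟨v, hv⟩ : K.Nonempty := card_pos.1 (by omega)
    have h2 := clq_card (S := ∅) hD hv (fun u hu hne => h1.2 v hv u hu (Ne.symm hne))
      (fun u hu _ => absurd hu (notMem_empty u)) (disjoint_empty_right _)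
    simpa using h2
  obtain ⟨Z, hZ1, hZ2⟩ := hD1 D hDD1 V G I (2 * n) hD hdis hcardI
    (by
      calc 16 * R * (2 * n) = 32 * R * n := by ring
        _ ≤ D := hn1)
  -- types
  obtain ⟨q, m, w, k, T, c, hTy, hU⟩ := hD2 D hDD2 V (Gp G (ZZ I Z))
    (fun v => (nb_le (G := G) (E := Gp G (ZZ I Z)) (fun u _ hu => hu.1)).trans (hD v)) (by
      intro Q hQ
      have h1 := clq_Gp (s := 2 * n) (t := n' + 1) hD hI hmax hZ1 (by omega) (by omega) (by omega) hQ
      have h2 : Q.card + 1 ≤ θ := h1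
      have h3 : (Q.card : ℝ) + 1 ≤ θ := by exact_mod_cast h2
      linarith)
  obtain ⟨U, hUU⟩ : ∃ U : ℕ, U = m * (w + 1) := ⟨_, rfl⟩
  have hUr : (U : ℝ) ≤ D / 2 + a / 4096 := by
    rw [hUU]
    push_cast
    refine hU.trans ?_
    rw [add_mul, heD]
    linarith
  have hmw : m * w ≤ U := by rw [hUU]; exact Nat.mul_le_mul_left _ (by omega)
  have hmwr : ((m * w : ℕ) : ℝ) ≤ U := by exact_mod_cast hmw
  have hH : Ctx G D p (2 * n) (n' + 1) θ h q m w k I Z T c := by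
    refine ⟨hD, hI, hdis, hZ1, ?_, hTy, by omega, even_two_mul n, by omega, by omega, by omega,
      by omega, ?_, ?_, ?_, ?_⟩
    · intro v
      rw [hh, Nat.le_div_iff_mul_le (by omega), mul_comm]
      exact hZ2 v
    · rw [← hUU]
      have h1 : ((U + (n' + 1) + 4 * (2 * n) : ℕ) : ℝ) ≤ p := by
        push_cast
        refine le_trans ?_ hp
        rw [add_mul]
        linarith
      exact_mod_cast h1
    · rw [← hUU]
      have h1 : ((U + (n' + 1) + 4 * (2 * n) : ℕ) : ℝ) ≤ D := by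
        push_cast
        linarith
      exact_mod_cast h1
    · rw [← hUU]
      have h1 : ((D + 16 * (2 * n) + 4 * U + 4 * (n' + 1) : ℕ) : ℝ) ≤ ((4 * D + 4 : ℕ) : ℝ) := by
        push_cast
        linarith
      exact_mod_cast h1
    · have h1 : (U : ℝ) ≤ ((2 * D : ℕ) : ℝ) := by
        push_cast
        linarith
      have h2 : U ≤ 2 * D := by exact_mod_cast h1
      omega
  refine hH.core hCRO hTGR hLAB hASM (ε / 2) (hD3 D hDD3) ?_
  refine le_trans ?_ hp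
  rw [add_mul]
  linarith

end Pool.Agent.H21.HV
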