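import Pool.Graph.R_pool_sql_team_seeded_efc1946e.K1H33.HY.Main
import Pool.Agent.H21.HV.Defs

set_option autoImplicit false

/-!
# TYP: types for graphs without cliques of nearly maximal size

The proofs are those of `Pool.Agent.K1H33.HY.{tied_core, clique_main}`, with the typed structure as
the conclusion.
-/

namespace Pool.Agent.H21.HV

open Finset Pool.Agent.Helper635.LLL Pool.Agent.H238R2.HY Pool.Agent.TH104.HY
  Pool.Agent.TH104.LS Pool.Agent.K1H33.HY

set_option maxHeartbeats 2000000 in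
open Classical in
/-- types for a sparse merged graph -/
theorem tied_typ {V : Type} [Fintype V] (G H : SimpleGraph V) [DecidableRel G.Adj]
    [DecidableRel H.Adj] (π : V → V) (hom : ∀ a b, G.Adj a b → H.Adj (π a) (π b))
    (htwo : ∀ y, (univ.filter (fun x => π x = y)).card ≤ 2)
    (D q m : ℕ) (δ e : ℝ) (hδ : 0 < δ) (hδ1 : δ ≤ 1) (he : e = δ / 2 ^ 20)
    (hDG : ∀ v, G.degree v ≤ D)
    (hD : ∀ v, H.degree v ≤ D)
    (hsp : ∀ v, ((((H.neighborFinset v) ×ˢ (H.neighborFinset v)).filter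
      (fun a => H.Adj a.1 a.2)).card : ℝ) ≤ (1 - δ) * (D : ℝ) ^ 2)
    (hq : 1 ≤ ((q : ℝ) + 1) * e) (hm : 8 * (q : ℝ) + 12 ≤ e * ((m : ℝ) - 1 - q))
    (hD1 : 24 * (m : ℝ) ≤ e * D) (hD2 : 4 * (m : ℝ) * (2 * m + 1) ≤ D)
    (hD3 : 69120 * (m : ℝ) * (2 ^ 23 * (m : ℝ) ^ 4 / δ ^ 2) ^ 5 ≤ D) :
    ∃ (w k : ℕ) (T c : V → ℕ), Typed G D q m w k T c ∧
      (m : ℝ) * ((w : ℝ) + 1) ≤ (1 / 2 + e) * D := by
  have he0 : 0 < e := by rw [he]; positivity
  have he2 : e ≤ 1 / 2 := by rw [he]; linarith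
  have heδ : e ≤ δ := by rw [he]; linarith
  have hq0 : (0 : ℝ) ≤ q := by positivity
  have hZ : 8 * (q : ℝ) + 12 ≤ (m : ℝ) - 1 - q := by nlinarith
  have hm2 : 2 * (q : ℝ) + 1 ≤ m := by linarith
  have hm2' : 2 * q + 1 ≤ m := by exact_mod_cast hm2
  have hmR : (13 : ℝ) ≤ m := by linarith
  have hm0 : (0 : ℝ) < m := by linarith
  have hDpos : (0 : ℝ) < D := by nlinarith
  have hem : 8 * (q : ℝ) + 12 ≤ e * m := by
    have : 0 ≤ e * (1 + q) := by positivity
    linarith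
  obtain ⟨x, hx⟩ : ∃ x : ℝ, x = 1 / (4 * (m : ℝ)) := ⟨_, rfl⟩
  have hxm : x * m = 1 / 4 := by rw [hx]; field_simp
  have hx0 : 0 < x := by rw [hx]; positivity
  have hx4 : x ≤ 1 / 4 := by nlinarith
  obtain ⟨u, hu⟩ : ∃ u : ℝ, u = (1 + x) * D / (2 * (m : ℝ)) := ⟨_, rfl⟩
  have hum : 2 * m * u = D + x * D := by rw [hu]; field_simp
  have hu0 : 0 < u := by rw [hu]; positivity
  have hmu : (D : ℝ) ≤ 2 * m * u := by
    rw [hum]
    have : 0 ≤ x * D := by positivity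
    linarith
  have heD : e * D ≤ 1 / 2 * D := mul_le_mul_of_nonneg_right he2 hDpos.le
  obtain ⟨s', hs'⟩ : ∃ s' : ℕ, s' = ⌊(1 - e) * (D : ℝ)⌋₊ := ⟨_, rfl⟩
  have hs1 : (s' : ℝ) ≤ (1 - e) * D := by
    rw [hs']; exact Nat.floor_le (mul_nonneg (by linarith) hDpos.le)
  have hs2 : (1 - e) * (D : ℝ) ≤ s' + 1 := by
    rw [hs']; exact (Nat.lt_floor_add_one _).le
  have heDm : 24 * (13 : ℝ) ≤ e * D := by linarith
  have hδD : 2 ≤ δ * D := by
    have : e * D ≤ δ * D := mul_le_mul_of_nonneg_right heδ hDpos.le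
    linarith
  have he3 : e ≤ 1 / 8 := by rw [he]; linarith
  have heD3 : e * D ≤ 1 / 8 * D := mul_le_mul_of_nonneg_right he3 hDpos.le
  have hs'half : (D : ℝ) / 2 ≤ s' := by linarith
  have hs'Dr : (s' : ℝ) ≤ D := by linarith
  have hs'D : s' ≤ D := by exact_mod_cast hs'Dr
  have hD1' : 1 ≤ D := by
    have : (0 : ℝ) < D := hDpos
    exact_mod_cast this
  have hcast : ((2 * m : ℕ) : ℝ) = 2 * (m : ℝ) := by push_cast; ring
  have hmN : 1 ≤ m := by omega
  have hK : 1 ≤ 2 * m := by omega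
  obtain ⟨w, hw⟩ : ∃ w : ℕ, w = ⌊(1 + x) * D / (2 * (m : ℝ))⌋₊ := ⟨_, rfl⟩
  obtain ⟨k', hk'⟩ : ∃ k' : ℕ, k' = ⌊(1 + x) * s' / (2 * (m : ℝ))⌋₊ := ⟨_, rfl⟩
  have hwu : (w : ℝ) ≤ u := by rw [hw, hu]; exact Nat.floor_le (by positivity)
  have huw : u ≤ w + 1 := by rw [hw, hu]; exact (Nat.lt_floor_add_one _).le
  have hku : (k' : ℝ) ≤ (1 + x) * s' / (2 * (m : ℝ)) := by
    rw [hk']; exact Nat.floor_le (by positivity)
  have hkl : (1 + x) * s' / (2 * (m : ℝ)) ≤ (k' : ℝ) + 1 := by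
    rw [hk']; exact (Nat.lt_floor_add_one _).le
  have hkl2 : (1 + x) * s' < 2 * m * ((k' : ℝ) + 1) := by
    have h1 : (1 + x) * s' / (2 * (m : ℝ)) < (k' : ℝ) + 1 := by
      rw [hk']; exact Nat.lt_floor_add_one _
    rw [div_lt_iff₀ (by positivity)] at h1
    linarith
  have hku2 : 2 * m * (k' : ℝ) ≤ (1 + x) * s' := by
    rw [le_div_iff₀ (by positivity)] at hku
    linarith
  have hku3 : (k' : ℝ) ≤ (1 - e) * u := by
    refine hku.trans ?_
    rw [hu, ← mul_div_assoc]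
    refine div_le_div_of_nonneg_right ?_ (by positivity)
    have := mul_le_mul_of_nonneg_left hs1 (by linarith : (0 : ℝ) ≤ 1 + x)
    linarith
  have hkw0 : k' ≤ w := by
    rw [hk', hw]
    apply Nat.floor_mono
    refine div_le_div_of_nonneg_right ?_ (by positivity)
    exact mul_le_mul_of_nonneg_left hs'Dr (by linarith)
  have hkw : k' + 1 ≤ w + 1 := by omega
  -- the number of temporary colours
  obtain ⟨Q, hQ⟩ : ∃ Q : ℕ, Q = ⌈(D : ℝ) / (4 * (m : ℝ))⌉₊ := ⟨_, rfl⟩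
  have hQ1 : (D : ℝ) ≤ 4 * m * Q := by
    have h1 : (D : ℝ) / (4 * (m : ℝ)) ≤ Q := by rw [hQ]; exact Nat.le_ceil _
    rw [div_le_iff₀ (by positivity)] at h1
    linarith
  have hQ2 : 4 * m * (Q : ℝ) < D + 4 * m := by
    have h1 : (Q : ℝ) < (D : ℝ) / (4 * (m : ℝ)) + 1 := by
      rw [hQ]; exact Nat.ceil_lt_add_one (by positivity)
    have h2 : 4 * (m : ℝ) * Q < 4 * m * ((D : ℝ) / (4 * (m : ℝ)) + 1) :=
      mul_lt_mul_of_pos_left h1 (by positivity)
    have h3 : 4 * m * ((D : ℝ) / (4 * (m : ℝ)) + 1) = D + 4 * m := by field_simp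
    linarith
  have hQpos : (0 : ℝ) < Q := by
    by_contra h
    rw [not_lt] at h
    have : 4 * m * (Q : ℝ) ≤ 0 := mul_nonpos_of_nonneg_of_nonpos (by positivity) h
    linarith
  have hQN : 1 ≤ Q := by exact_mod_cast hQpos
  have hQk : Q ≤ k' + 1 := by
    have h1 : (Q : ℝ) < (k' : ℝ) + 1 + 1 := by
      have h2 : (s' : ℝ) ≤ (1 + x) * s' := by
        have : 0 ≤ x * s' := by positivity
        linarith
      have h3 : 4 * m * (Q : ℝ) < 4 * m * ((k' : ℝ) + 1 + 1) := by linarith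
      exact lt_of_mul_lt_mul_left h3 (by positivity)
    have h2 : Q < k' + 1 + 1 := by exact_mod_cast h1
    omega
  have hg1 := g_ok (m := (m : ℝ)) (e := e) (D := (D : ℝ)) hmR hx0.le hx4 hum hwu hkl2.le hs2 hD1
  have hn : ((2 * m * Q : ℕ) : ℝ) = 2 * m * Q := by push_cast; ring
  have hnD : ((2 * m * Q : ℕ) : ℝ) ≤ D := by
    rw [hn]
    have h1 : 4 * (m : ℝ) * 1 ≤ 4 * m * (2 * m + 1) :=
      mul_le_mul_of_nonneg_left (by linarith) (by positivity)
    linarith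
  have hb : (1 : ℝ) / 16 ≤ (1 - 1 / ((2 * m * Q : ℕ) : ℝ)) ^ D := by
    have h1 : D ≤ 4 * (m * Q) := by
      have : (D : ℝ) ≤ ((4 * (m * Q) : ℕ) : ℝ) := by push_cast; linarith
      exact_mod_cast this
    have h2 := pow_low (m * Q) D (Nat.mul_pos hmN hQN) h1
    rw [← mul_assoc] at h2
    exact h2
  obtain ⟨T, hT1, hT2, c, hc1, hc2⟩ := typing2 G H π hom htwo (2 * m) D Q w k' s' (w - k') hK hQN hD1'
    hDG hD hs'D hQk (by omega) x hx0.le (by linarith)
    (by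
      have h1 : 24 * (m : ℝ) ≤ 1 / 2 * D := hD1.trans heD
      have h2 : x * D * (4 * m) = D := by rw [hx]; field_simp
      have h3 : 6 * (4 * (m : ℝ)) ≤ x * D * (4 * m) := by rw [h2]; linarith
      exact le_of_mul_le_mul_right h3 (by positivity))
    (by rw [hcast]; push_cast; rw [← hu]; exact huw)
    (by rw [hcast]; push_cast; exact hkl)
    (1 / 256) (δ * Q / 256) (δ * Q / 256) (by positivity) (by norm_num)
    (by
      have h1 : (1 : ℝ) / 256 = (1 / 16) ^ 2 := by norm_num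
      rw [h1, mul_comm 2 D, pow_mul]
      exact pow_le_pow_left₀ (by norm_num) hb 2)
    (by
      intro v hv
      have hdeg := SimpleGraph.card_neighborFinset_eq_degree H v
      refine mean_ok hδ hDpos hQpos.le (by rw [hn]; positivity) hnD hb ?_
      refine NA_real (d := (H.degree v : ℝ)) (s' := (s' : ℝ)) hδ he hδ1 hδD hs2 ?_ ?_ (hsp v) ?_
      · exact_mod_cast hv
      · exact_mod_cast hD v
      · have h1 := NA_count H (H.neighborFinset v)
        rw [hdeg] at h1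
        exact_mod_cast h1)
    (by
      rw [Nat.cast_sub hkw0]
      have h1 : (m : ℝ) * (4 * ((w : ℝ) - k')) ≤ m * (1 / 256 * (δ * Q / 256)) := by
        have h2 : (m : ℝ) * (1 / 256 * (δ * Q / 256)) = δ * (4 * m * Q) / 2 ^ 18 := by
          ring
        rw [h2]
        have h3 : δ * D / 2 ^ 18 ≤ δ * (4 * m * Q) / 2 ^ 18 := by
          apply div_le_div_of_nonneg_right _ (by norm_num)
          exact mul_le_mul_of_nonneg_left hQ1 hδ.le
        refine le_trans ?_ h3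
        have h4 : δ * D / 2 ^ 18 = 4 * (e * D) := by rw [he]; ring
        rw [h4]
        linarith
      exact le_of_mul_le_mul_left h1 hm0)
    (by
      have h := lll_number2 (m := (m : ℝ)) (δ := δ) (D := (D : ℝ)) (s' := (s' : ℝ))
        (Q := (Q : ℝ)) (x := x) (t := δ * Q / 256) (a₀ := δ * Q / 256) (by linarith) hδ hδ1
        hDpos hx hs'half hQ1 rfl rfl hD3
      rw [hcast]
      push_cast
      exact h)
  -- u e ≥ 12
  have hue : 12 ≤ e * u := by
    have h1 : 24 * (m : ℝ) ≤ e * (2 * m * u) := hD1.trans (mul_le_mul_of_nonneg_left hmu he0.le)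
    have h3 : (2 * (m : ℝ)) * 12 ≤ (2 * (m : ℝ)) * (e * u) := by linarith
    exact le_of_mul_le_mul_left h3 (by positivity)
  refine ⟨w, k' + 1, T, c, ⟨hm2', hT1, ?_, hc1, hc2, hkw, ?_, ?_⟩, ?_⟩
  · intro v y
    refine le_trans (le_of_eq ?_) (hT2 v y)
    unfold nb
    congr 1
    ext a
    simp only [mem_filter, mem_univ, true_and, SimpleGraph.mem_neighborFinset]
    exact and_comm
  · have h := arH1 hq0 hu0 hm hZ hue huw hku3
    exact_mod_cast h
  · have h := arH2 hq0 hu0 hm0 hq hZ hwu hku3 hxm hum hmu hD2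
    exact_mod_cast h
  · have h1 : (m : ℝ) * w ≤ m * u := mul_le_mul_of_nonneg_left hwu hm0.le
    have h2 : 2 * ((m : ℝ) * u) = D + x * D := by rw [← hum]; ring
    have h3 : x * D ≤ e * D := by
      apply mul_le_mul_of_nonneg_right _ hDpos.le
      rw [hx, div_le_iff₀ (by positivity)]
      nlinarith
    nlinarith

/-- TYP -/
theorem t_TYP : S_TYP := by
  classical
  intro ε hε0 hε1
  refine ⟨⌈(2 ^ 42 / ε ^ 2) ^ 52⌉₊, ?_⟩
  intro D hDD V _ G hDG hω
  have hDε : (2 ^ 42 / ε ^ 2) ^ 52 ≤ (D : ℝ) := (Nat.le_ceil _).trans (by exact_mod_cast hDD)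
  obtain ⟨r, hr⟩ : ∃ r : ℝ, r = ε / 512 := ⟨_, rfl⟩
  obtain ⟨e, he⟩ : ∃ e : ℝ, e = ε ^ 2 / 2 ^ 42 := ⟨_, rfl⟩
  have hr0 : 0 < r := by rw [hr]; positivity
  have hr1 : 512 * r ≤ 1 := by rw [hr]; linarith
  have he0 : 0 < e := by rw [he]; positivity
  have he1 : e ≤ 1 / 2 ^ 42 := by
    rw [he]
    apply div_le_div_of_nonneg_right _ (by positivity)
    nlinarith
  have heε : e ≤ ε := by
    rw [he, div_le_iff₀ (by positivity)]
    nlinarith
  have hDe : 1 / e ^ 52 ≤ (D : ℝ) := by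
    have : 1 / e ^ 52 = (2 ^ 42 / ε ^ 2) ^ 52 := by rw [he]; field_simp
    rw [this]; exact hDε
  have hδ : r ^ 2 / 16 = 2 ^ 20 * e := by rw [hr, he]; ring
  have hDpos : 0 < D := by
    have : (0 : ℝ) < D := lt_of_lt_of_le (by positivity) hDe
    exact_mod_cast this
  have hdeg : ∀ v, G.degree v ≤ D := by
    intro v
    refine le_trans (le_of_eq ?_) (hDG v)
    rw [← SimpleGraph.card_neighborFinset_eq_degree]
    unfold nb
    congr 1
    ext a
    simp only [mem_filter, mem_univ, true_and, SimpleGraph.mem_neighborFinset]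
  have hD' : ∀ v, (G.neighborFinset v).card ≤ D := by
    intro v; rw [SimpleGraph.card_neighborFinset_eq_degree]; exact hdeg v
  obtain ⟨F, hF⟩ := exists_fam hr0 hr1 hDpos hD'
  obtain ⟨π, hM⟩ := exists_mrg (G := G) r D F
  have hω' : ∀ S : Finset V, (∀ x ∈ S, ∀ y ∈ S, x ≠ y → G.Adj x y) →
      (S.card : ℝ) ≤ (1 - 512 * r) * D := by
    intro S hS
    have h1 : 1 - 512 * r = 1 - ε := by rw [hr]; ring
    rw [h1]
    exact hω S hS
  obtain ⟨q, m, n1, n2, n3, n4, n5⟩ := numer he0 he1 hDe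
  obtain ⟨w, k, T, c, h1, h2⟩ := tied_typ G (GM G π) π (fun a b h => GM_hom hM h) (by
      intro y
      have := hM.two y
      convert this) D q m (r ^ 2 / 16) e
    (by positivity) (by nlinarith) (by rw [hδ]; ring) hdeg (by
      intro v
      rw [← SimpleGraph.card_neighborFinset_eq_degree]
      exact card_M hr0 hr1 hDpos hD' hF hM hω' v) (by
      intro v
      exact AP_M hr0 hr1 hDpos hD' hF hM hω' v) n1 n2 n3 n4
    (by rw [hδ]; exact n5)
  refine ⟨q, m, w, k, T, c, h1, h2.trans ?_⟩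
  apply mul_le_mul_of_nonneg_right _ (by positivity)
  linarith

end Pool.Agent.H21.HV
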