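import Pool.Agent.H21.HV.Fin3
import Pool.Agent.H21.HV.Typ
import Pool.Agent.H31.HV.Aae
import Pool.Agent.H31.HV.Hal
import Pool.Agent.H31.HV.Lig
import Pool.Agent.H31.HV.Sel
import Pool.Agent.H31.HV.Top
import Pool.Agent.H64.HV.Cro
import Pool.Agent.H64.HV.Lab
import Pool.Agent.H65.HV.BipReg
import Pool.Agent.H65.HV.FamAsm
import Pool.Agent.H65.HV.Tgr

/-!
# The Havet-Yu conjecture for `p ≥ (1/2 + ε) Δ` and all graphs of large maximum degree

Proof.  Let `D` be the maximum degree.  Take a maximal family of disjoint cliques of size at least
`(1 - ε') D` and in each of them a set `Z K` of a small proportion of its vertices (the mids), such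
that every vertex has few neighbours in their union `Z`.  Without the edges at `Z` the graph has no
clique of size more than `(1 - ε') D`, so its vertices can be distributed into types with few
neighbours of each type and with economical colourings of the types; the vertices of the types
`0, …, m - 1` (side `A`) get small labels `x`, the others (side `B`) large labels `D + 2 p - 1 - x`,
and the edges between `A` and `B` get labels `p + e` in the middle.  The mids also get labels
`p + D - X` in the middle, where there are only `D + 1` labels left for the `D` edges at a vertex: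
`X` labels above and `D + 1 - X` below.  The edges between two mids of the same clique are divided
into two graphs with the prescribed degrees, so that a mid `z` has exactly `X z` or `X z - 1` edges
with labels above and at most `D + 1 - X z` edges with labels below; the numbers `X z` are
different for adjacent mids by the lopsided local lemma for random injections.  The edges between
`Z K` and `A ∩ K` are coloured from these tight lists by Hall's theorem, one mid after the other,
after a greedy colouring of the few other edges at the mids; then the edges inside `A` are coloured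
by a theorem on edge colourings with few forbidden colours.  The same for `B`.
-/

set_option autoImplicit false

namespace Pool.Agent.Results.MP_b8729f_co.HalfRange

/-- `TotalLabeling G p l`: the graph `G` has a `(p,1)`-total labeling of span `l`, that is, labels
`0, …, l` for the vertices (`fV`) and the edges (`fE`) such that adjacent vertices get different
labels, edges sharing an endpoint get different labels, and the labels of a vertex and of an
incident edge differ by at least `p`. -/
def TotalLabeling {V : Type} (G : SimpleGraph V) (p l : ℕ) : Prop :=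
  ∃ (fV : V → ℕ) (fE : Sym2 V → ℕ),
    (∀ v, fV v ≤ l) ∧ (∀ e ∈ G.edgeSet, fE e ≤ l) ∧
    (∀ u v, G.Adj u v → fV u ≠ fV v) ∧
    (∀ u v w, G.Adj u v → G.Adj u w → v ≠ w → fE s(u, v) ≠ fE s(u, w)) ∧
    (∀ u v, G.Adj u v → (p : ℤ) ≤ |(fV u : ℤ) - (fE s(u, v) : ℤ)|)

open Pool.Agent.H21.HV in
theorem main : S_FIN :=
  t_FIN Pool.Agent.H65.HV.t_FAM Pool.Agent.H31.HV.t_SEL t_TYP Pool.Agent.H64.HV.t_CRO
    (Pool.Agent.H65.HV.t_TGR Pool.Agent.H65.HV.t_BIP Pool.Agent.H65.HV.t_REG)
    Pool.Agent.H64.HV.t_LAB
    (Pool.Agent.H31.HV.t_TOP Pool.Agent.H31.HV.t_LIG Pool.Agent.H31.HV.t_HAL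
      Pool.Agent.H31.HV.t_AAE)
    Pool.Agent.H65.HV.t_ASM

/-- **The Havet-Yu conjecture for `p ≥ (1/2 + ε) Δ`, for all graphs of large maximum degree.**
For every `ε > 0` there is `D₀` such that every finite simple graph `G` with maximum degree
`Δ ≥ D₀` has, for every `p ≥ (1/2 + ε) Δ`, a `(p,1)`-total labeling of span `Δ + 2 p - 1`. -/
theorem result : ∀ ε : ℝ, 0 < ε → ∃ D₀ : ℕ, ∀ (V : Type) [Fintype V] (G : SimpleGraph V)
    [DecidableRel G.Adj] (p : ℕ), D₀ ≤ G.maxDegree → (1 / 2 + ε) * (G.maxDegree : ℝ) ≤ p →
      TotalLabeling G p (G.maxDegree + 2 * p - 1) := by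
  intro ε hε
  obtain ⟨D₀, hD₀⟩ := main ε hε
  refine ⟨D₀, ?_⟩
  intro V _ G _ p hD hp
  refine hD₀ G.maxDegree hD p hp V G ?_
  intro v
  have h := G.degree_le_maxDegree v
  refine le_trans (le_of_eq ?_) h
  unfold Pool.Agent.H21.HV.nb
  rw [← SimpleGraph.card_neighborFinset_eq_degree]
  congr 1
  ext y
  simp

end Pool.Agent.Results.MP_b8729f_co.HalfRange
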